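import Pool.Agent.Helper2_Pak.Stmts

/-!
# Squad PAK1, module E9: every packing gives displacements
-/

set_option autoImplicit false

namespace Pool.Agent.Helper2_Pak.H63

open Pool.Agent.Helper2_Pack (Motion)

theorem sum_odd (f : ℕ → ℝ) (h : ∀ r, r % 2 = 0 → f r = 0) (n : ℕ) :
    ∑ r ∈ Finset.range (2 * n + 1), f r = ∑ i ∈ Finset.range n, f (2 * i + 1) := by
  induction n with
  | zero => simp [h 0 rfl]
  | succ n ih =>
    rw [show 2 * (n + 1) + 1 = (2 * n + 1) + 1 + 1 by ring, Finset.sum_range_succ,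
      Finset.sum_range_succ, ih, Finset.sum_range_succ, h (2 * n + 1 + 1) (by omega), add_zero]

theorem spc_even (G : Lay) (c r : ℕ) (hr : r % 2 = 0) : G.spc c r = false := by
  unfold Lay.spc
  split_ifs with h
  · simp [hr]
  · have h1 : (r - 2 * G.n) % 2 = 0 := by omega
    unfold Kind.sp
    split <;> simp <;> omega

theorem spc_main (G : Lay) (c i : ℕ) (hi : i < G.n) :
    G.spc c (2 * i + 1) = decide (i < G.l c) := by
  unfold Lay.spc
  have h1 : 2 * i + 1 < G.N := by unfold Lay.N; omega
  rw [if_pos h1]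
  have h2 : (2 * i + 1) % 2 = 1 := by omega
  simp only [h2, decide_true, Bool.true_and]
  congr 1
  exact propext ⟨fun h => by omega, fun h => by omega⟩

theorem h_cases (k : Kind) : k.h = 0 ∨ k.h % 2 = 1 := by
  cases k <;> simp [Kind.h]

/-- the excess of a column in a special row -/
noncomputable def ex (t : ℝ) (G : Lay) (g : ℕ → ℕ → Motion) (c r : ℕ) : ℝ :=
  if G.spc c r = true then
    (if (G.kd c).isW = true then -(t ^ 4 * xrD t G g c r) else t ^ 4 * xlD t G g c r) else 0

theorem N_le_K (G : Lay) (c : ℕ) (hc : c < G.M) : G.N ≤ G.K := by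
  have h1 : G.K = (∑ c : Fin G.M, G.top c) +
      Fintype.card {c : Fin G.M // (G.kd c).isL = true} := by
    unfold Lay.K
    rw [Fintype.card_sum, Fintype.card_sigma]
    simp
  have h2 : G.top c ≤ ∑ c : Fin G.M, G.top c :=
    Finset.single_le_sum (f := fun c : Fin G.M => G.top c) (fun _ _ => Nat.zero_le _)
      (Finset.mem_univ (⟨c, hc⟩ : Fin G.M))
  have h3 : G.N ≤ G.top c := Nat.le_add_right _ _
  omega

theorem e9 (h6 : E6Stmt) (h7 : E7Stmt) (h8 : E8Stmt) (h1 : G1Stmt) : E9Stmt := by
  intro t G g L kL hOK hS hA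
  obtain ⟨a1, a2, a3, a4, a5⟩ := h6 t G g L kL hOK hS hA
  have hE7 := h7 t G g L kL hOK hS hA
  obtain ⟨g1, g2, g3, g4, g5, g6⟩ := h1 t G hOK hS
  have ht : 0 < t := hS.pos
  -- even rows
  have nhe : ∀ c r, r % 2 = 0 → G.nh t c r = 2 * hh t := by
    intro c r hr
    unfold Lay.nh hh
    rw [spc_even G c r hr]
    simp
    ring
  have exe : ∀ c r, r % 2 = 0 → ex t G g c r = 0 := by
    intro c r hr
    unfold ex
    rw [spc_even G c r hr]
    simp
  -- odd rows
  have odd1 : ∀ c, c < G.M → ∀ r, r % 2 = 1 → r < G.top c →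
      (r + 1 < G.top c → (g c (r - 1)).v.im + hh t + G.nh t c r + ex t G g c r ≤
        (g c (r + 1)).v.im - hh t) ∧
      (r + 1 = G.top c → (g c (r - 1)).v.im + hh t + G.nh t c r + ex t G g c r ≤ G.ce t c) := by
    intro c hc r hr hrt
    obtain ⟨b1, b2, b3⟩ := (hE7 c hc).2.2 r hr hrt
    unfold ex
    by_cases hs : G.spc c r = true
    · rw [if_pos hs]
      by_cases hW : (G.kd c).isW = true
      · rw [if_pos hW]
        obtain ⟨c1, c2⟩ := b3 hs hW
        exact ⟨fun h => by linarith only [c1 h], fun h => by linarith only [c2 h]⟩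
      · rw [if_neg hW]
        obtain ⟨c1, c2⟩ := b2 hs (by simpa using hW)
        exact ⟨fun h => by linarith only [c1 h], fun h => by linarith only [c2 h]⟩
    · rw [if_neg hs]
      obtain ⟨c1, c2⟩ := b1 (by simpa using hs)
      exact ⟨fun h => by linarith only [c1 h], fun h => by linarith [c2 h]⟩
  have hN : G.N = 2 * G.n + 1 := rfl
  -- telescoping
  have tel1 : ∀ c, c < G.M → ∀ j, 2 * j < G.top c →
      G.fl t c + ∑ r ∈ Finset.range (2 * j + 1), (G.nh t c r + ex t G g c r) ≤
        (g c (2 * j)).v.im + hh t := by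
    intro c hc j
    induction j with
    | zero =>
      intro _
      have h0 := (hE7 c hc).1
      simp only [mul_zero, zero_add, Finset.sum_range_one]
      rw [nhe c 0 rfl, exe c 0 rfl]
      linarith only [h0]
    | succ j ih =>
      intro hj
      have ih' := ih (by omega)
      have h0 := (odd1 c hc (2 * j + 1) (by omega) (by omega)).1 (by omega)
      rw [show 2 * (j + 1) + 1 = (2 * j + 1) + 1 + 1 by ring, Finset.sum_range_succ,
        Finset.sum_range_succ, nhe c (2 * j + 1 + 1) (by omega), exe c (2 * j + 1 + 1) (by omega)]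
      rw [show 2 * (j + 1) = 2 * j + 1 + 1 by ring]
      rw [show 2 * j + 1 - 1 = 2 * j by omega] at h0
      linarith only [ih', h0]
  have tel2 : ∀ c, c < G.M → ∀ j, G.N + 2 * j ≤ G.top c →
      (g c (G.N - 1)).v.im + hh t +
        ∑ r ∈ Finset.Ico G.N (G.N + 2 * j), (G.nh t c r + ex t G g c r) ≤
        (g c (G.N - 1 + 2 * j)).v.im + hh t := by
    intro c hc j
    induction j with
    | zero =>
      intro _
      simp
    | succ j ih =>
      intro hj
      have ih' := ih (by omega)
      have h0 := (odd1 c hc (G.N + 2 * j) (by omega) (by omega)).1 (by omega)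
      rw [show G.N + 2 * (j + 1) = (G.N + 2 * j) + 1 + 1 by ring,
        Finset.sum_Ico_succ_top (by omega), Finset.sum_Ico_succ_top (by omega),
        nhe c (G.N + 2 * j + 1) (by omega), exe c (G.N + 2 * j + 1) (by omega)]
      rw [show G.N - 1 + 2 * (j + 1) = G.N + 2 * j + 1 by omega]
      rw [show G.N + 2 * j - 1 = G.N - 1 + 2 * j by omega] at h0
      linarith only [ih', h0]
  have main : ∀ c, c < G.M → ∑ r ∈ Finset.range G.N, ex t G g c r ≤ YD t G g c := by
    intro c hc
    have h0 := tel1 c hc G.n (by unfold Lay.top; omega)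
    unfold YD
    unfold Lay.fl at h0
    rw [Finset.sum_add_distrib, ← hN] at h0
    rw [show G.N - 1 = 2 * G.n by omega]
    linarith only [h0]
  have ceil : ∀ c, c < G.M → (G.kd c).isL = false → (G.kd c).isR = false →
      YD t G g c + ∑ r ∈ Finset.Ico G.N (G.top c), ex t G g c r ≤ (G.kd c).off * t ^ 8 := by
    intro c hc hL hR
    have hce : G.ce t c = (G.N : ℝ) + (∑ r ∈ Finset.Ico G.N (G.top c), G.nh t c r) +
        ((G.kd c).off : ℝ) * t ^ 8 := by
      unfold Lay.ce
      rw [hL, hR]
      simp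
    have key : (g c (G.N - 1)).v.im + hh t +
        ∑ r ∈ Finset.Ico G.N (G.top c), (G.nh t c r + ex t G g c r) ≤ G.ce t c := by
      rcases h_cases (G.kd c) with h0 | h0
      · have h2 := (hE7 c hc).2.1 h0
        have h3 : G.top c = G.N := by unfold Lay.top; omega
        rw [h3]
        simpa using h2
      · obtain ⟨j, hj⟩ : ∃ j, (G.kd c).h = 2 * j + 1 := ⟨(G.kd c).h / 2, by omega⟩
        have h3 : G.top c = G.N + 2 * j + 1 := by unfold Lay.top; omega
        have h4 := tel2 c hc j (by omega)
        have h5 := (odd1 c hc (G.N + 2 * j) (by omega) (by omega)).2 (by omega)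
        rw [h3, Finset.sum_Ico_succ_top (by omega)]
        rw [show G.N + 2 * j - 1 = G.N - 1 + 2 * j by omega] at h5
        linarith only [h4, h5]
    rw [hce, Finset.sum_add_distrib] at key
    unfold YD
    linarith
  -- the sums
  have sumMain : ∀ c, ∑ r ∈ Finset.range G.N, ex t G g c r =
      ∑ i ∈ Finset.range (G.l c), ex t G g c (2 * i + 1) := by
    intro c
    rw [hN, sum_odd _ (exe c)]
    symm
    refine Finset.sum_subset ?_ ?_
    · intro i hi
      rw [Finset.mem_range] at hi ⊢
      exact lt_of_lt_of_le hi (hOK.l_le c)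
    · intro i hi hi'
      rw [Finset.mem_range] at hi hi'
      unfold ex
      rw [spc_main G c i hi]
      simp [hi']
  have exV : ∀ c, (G.kd c).isW = false → ∀ i, i < G.l c →
      ex t G g c (2 * i + 1) = t ^ 4 * xlD t G g c (2 * i + 1) := by
    intro c hW i hi
    unfold ex
    rw [spc_main G c i (lt_of_lt_of_le hi (hOK.l_le c)), hW]
    simp [hi]
  have exW : ∀ c, (G.kd c).isW = true → ∀ i, i < G.l c →
      ex t G g c (2 * i + 1) = -(t ^ 4 * xrD t G g c (2 * i + 1)) := by
    intro c hW i hi
    unfold ex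
    rw [spc_main G c i (lt_of_lt_of_le hi (hOK.l_le c)), hW]
    simp [hi]
  have mV : ∀ c, c < G.M → (G.kd c).isW = false →
      t ^ 4 * ∑ i ∈ Finset.range (G.l c), xlD t G g c (2 * i + 1) ≤ YD t G g c := by
    intro c hc hW
    have h0 := main c hc
    rw [sumMain c, Finset.sum_congr rfl fun i hi => exV c hW i (Finset.mem_range.1 hi),
      ← Finset.mul_sum] at h0
    exact h0
  have pres_of : ∀ c r, c < G.M → r < G.top c → G.pres c r = true := by
    intro c r hc hr
    unfold Lay.pres
    simp [hc, hr]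
  have bndY : ∀ c, c < G.M → (G.kd c).isW = false → (G.kd c).h = 0 →
      (G.kd c).isL = true ∨ (G.kd c).isR = true → |YD t G g c| ≤ t ^ 3 / 64 := by
    intro c hc hW hh0 hLR
    have h2 := (hE7 c hc).2.1 hh0
    have hce : G.ce t c = (G.N : ℝ) + t ^ 4 := by
      unfold Lay.ce
      have h3 : G.top c = G.N := by unfold Lay.top; omega
      rw [h3]
      rcases hLR with h | h <;> simp [h]
    have hup : YD t G g c ≤ t ^ 4 := by
      unfold YD
      linarith only [h2, hce]
    have hlow : -(G.l c * t ^ 7) ≤ YD t G g c := by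
      refine le_trans ?_ (mV c hc hW)
      have h5 : ∑ i ∈ Finset.range (G.l c), (-t ^ 3) ≤
          ∑ i ∈ Finset.range (G.l c), xlD t G g c (2 * i + 1) := by
        refine Finset.sum_le_sum fun i hi => ?_
        refine (a5 c (2 * i + 1) (by omega) (pres_of c _ hc ?_)).1
        have h6 := lt_of_lt_of_le (Finset.mem_range.1 hi) (hOK.l_le c)
        unfold Lay.top
        omega
      rw [Finset.sum_const, Finset.card_range, nsmul_eq_mul] at h5
      have h6 : 0 ≤ t ^ 4 := by positivity
      linarith only [mul_le_mul_of_nonneg_left h5 h6]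
    have ht1 : t ≤ 1 / 64 := g1.trans (by norm_num)
    have hl : (G.l c : ℝ) * t ≤ 1 / 64 := by
      have h7 : (G.l c : ℝ) ≤ G.K := by
        have h8 := hOK.l_le c
        have h9 := N_le_K G c hc
        exact_mod_cast (by omega : G.l c ≤ G.K)
      have h10 : (G.l c : ℝ) * t ≤ G.K * t := mul_le_mul_of_nonneg_right h7 ht.le
      exact h10.trans (g2.trans (by norm_num))
    have ht3 : 0 < t ^ 3 := by positivity
    rw [abs_le]
    constructor
    · refine le_trans ?_ hlow
      have h11 : (G.l c : ℝ) * t ^ 7 = (G.l c * t) * (t ^ 3 * t ^ 3) := by ring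
      rw [h11]
      have h12 : t ^ 3 ≤ 1 := pow_le_one₀ ht.le (by linarith only [g1])
      have h13 : (G.l c * t) * (t ^ 3 * t ^ 3) ≤ 1 / 64 * (t ^ 3 * 1) := by
        refine mul_le_mul hl ?_ (by positivity) (by norm_num)
        exact mul_le_mul_of_nonneg_left h12 ht3.le
      linarith only [h13]
    · refine hup.trans ?_
      have h11 : t ^ 4 = t ^ 3 * t := by ring
      rw [h11]
      linarith only [mul_le_mul_of_nonneg_left ht1 ht3.le]
  refine ⟨a1, a2, a3, a4, mV, ?_, ?_, ?_, ?_⟩
  · intro c hc hW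
    have h0 := main c hc
    rw [sumMain c, Finset.sum_congr rfl fun i hi => exW c hW i (Finset.mem_range.1 hi),
      Finset.sum_neg_distrib, ← Finset.mul_sum] at h0
    exact h0
  · intro c hc hW hL hR
    have h0 := ceil c hc hL hR
    have h2 : ∑ r ∈ Finset.Ico G.N (G.top c), ex t G g c r =
        t ^ 4 * ∑ r ∈ (Finset.Ico G.N (G.top c)).filter (fun r => G.spc c r = true),
          xlD t G g c r := by
      rw [Finset.mul_sum, Finset.sum_filter]
      refine Finset.sum_congr rfl fun r _ => ?_
      unfold ex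
      rw [hW]
      simp
    rw [h2] at h0
    exact h0
  · intro c hc hW
    have hLR : (G.kd c).isL = false ∧ (G.kd c).isR = false := by
      revert hW
      cases G.kd c <;> simp [Kind.isW, Kind.isL, Kind.isR]
    have h0 := ceil c hc hLR.1 hLR.2
    have h2 : ∑ r ∈ Finset.Ico G.N (G.top c), ex t G g c r =
        -(t ^ 4 * ∑ r ∈ (Finset.Ico G.N (G.top c)).filter (fun r => G.spc c r = true),
          xrD t G g c r) := by
      rw [Finset.mul_sum, Finset.sum_filter, ← Finset.sum_neg_distrib]
      refine Finset.sum_congr rfl fun r _ => ?_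
      unfold ex
      rw [hW]
      by_cases hs : G.spc c r = true <;> simp [hs]
    rw [h2] at h0
    linarith only [h0]
  · intro c hc hL
    obtain ⟨σ, hσ⟩ : ∃ σ, G.kd c = .pL σ := by
      revert hL
      cases G.kd c <;> simp [Kind.isL]
    obtain ⟨hc1, hσ1⟩ := hOK.portL c σ hc hσ
    have y1 := bndY c hc (by rw [hσ]; rfl) (by rw [hσ]; rfl) (Or.inl hL)
    have y2 := bndY (c + 1) hc1 (by rw [hσ1]; rfl) (by rw [hσ1]; rfl)
      (Or.inr (by rw [hσ1]; rfl))
    exact ⟨y1, y2, h8 t G g L kL hOK hS hA c hc hL y1 y2⟩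

end Pool.Agent.Helper2_Pak.H63
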