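import Pool.Agent.Helper2_Pak.StmtsK

/-!
# Squad PAK1, module K2: tiles in the same row
-/

set_option autoImplicit false

namespace Pool.Agent.Helper2_Pak.H63

open Pool.Agent.Helper2_Pack (Motion)

/-- Two sets which are separated by the graph of a function of the ordinate. -/
theorem disj_of_sep (A B : Set ℂ) (f g : ℝ → ℝ) (hA : ∀ z ∈ A, z.re ≤ f z.im)
    (hB : ∀ z ∈ B, g z.im ≤ z.re) (h : ∀ y, f y ≤ g y) :
    Disjoint (interior A) (interior B) := by
  rw [Set.disjoint_left]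
  intro z hzA hzB
  obtain ⟨δ, hδ, hball⟩ := Metric.isOpen_iff.1 isOpen_interior z hzA
  have h1 : z + ((δ / 2 : ℝ) : ℂ) ∈ A := by
    refine interior_subset (hball ?_)
    rw [Metric.mem_ball, dist_eq_norm, add_sub_cancel_left, Complex.norm_real,
      Real.norm_of_nonneg (by linarith)]
    linarith
  have h2 := hA _ h1
  have h3 := hB z (interior_subset hzB)
  have h4 := h z.im
  simp only [Complex.add_re, Complex.ofReal_re, Complex.add_im, Complex.ofReal_im, add_zero]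
    at h2
  linarith

/-- the right side of a tile in the orientation `k` -/
noncomputable def Rs (t : ℝ) (k : ℕ) (y : ℝ) : ℝ :=
  if k = 0 then rt t y else if k = 1 then -lo t y else if k = 2 then -lf t (-y) else hi t (-y)

/-- the left side of a tile in the orientation `k` -/
noncomputable def Ls (t : ℝ) (k : ℕ) (y : ℝ) : ℝ :=
  if k = 0 then lf t y else if k = 1 then -hi t y else if k = 2 then -rt t (-y) else lo t (-y)

theorem mem_sides (t : ℝ) (k : ℕ) (hk : k < 4) (v z : ℂ) (hz : z ∈ tile t (mk k v)) :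
    z.re ≤ v.re + Rs t k (z.im - v.im) ∧ v.re + Ls t k (z.im - v.im) ≤ z.re := by
  obtain ⟨w, ⟨w1, w2, w3, w4⟩, rfl⟩ := hz
  have happ : (mk k v).app w = Complex.I ^ k * w + v := rfl
  rw [happ]
  interval_cases k
  · simp [Rs, Ls]
    exact ⟨by linarith, by linarith⟩
  · simp [Rs, Ls]
    exact ⟨by linarith, by linarith⟩
  · simp [Rs, Ls]
    exact ⟨by linarith, by linarith⟩
  · have hI : Complex.I ^ 3 = -Complex.I := by
      rw [pow_succ, Complex.I_sq]
      ring
    rw [hI]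
    simp [Rs, Ls]
    exact ⟨by linarith, by linarith⟩

theorem dent_nonneg (t e : ℝ) : 0 ≤ dent t e := le_max_left _ _
theorem pit_nonneg (a b e : ℝ) : 0 ≤ pit a b e := le_max_left _ _
theorem slit_nonneg (t d e : ℝ) : 0 ≤ slit t d e := le_max_left _ _
theorem chamf_nonneg (t w e : ℝ) : 0 ≤ chamf t w e := le_max_left _ _

theorem two_bumps (t y : ℝ) (ht : 0 < t) (ht1 : t ≤ 1 / 2 ^ 60) :
    bump t (y + 1 / 4) + bump t (y - 1 / 4) ≤ t ^ 3 := by
  have h3 : t ^ 3 ≤ 1 / 8 := by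
    have h1 : t ≤ 1 / 2 := ht1.trans (by norm_num)
    have h2 : t ^ 3 ≤ (1 / 2) ^ 3 := pow_le_pow_left₀ ht.le h1 3
    linarith
  have h0 : 0 < t ^ 3 := by positivity
  unfold bump
  rcases le_total 0 y with hy | hy
  · have h4 : max 0 (t ^ 3 - |y + 1 / 4|) = 0 := by
      rw [abs_of_nonneg (by linarith)]
      exact max_eq_left (by linarith)
    rw [h4, zero_add]
    exact max_le h0.le (by linarith [abs_nonneg (y - 1 / 4)])
  · have h4 : max 0 (t ^ 3 - |y - 1 / 4|) = 0 := by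
      rw [abs_of_nonpos (by linarith)]
      exact max_eq_left (by linarith)
    rw [h4, add_zero]
    exact max_le h0.le (by linarith [abs_nonneg (y + 1 / 4)])

theorem bump_le_dent (t e e' : ℝ) (ht : 0 < t) (ht1 : t ≤ 1 / 2 ^ 60) (h : |e - e'| ≤ t / 4) :
    bump t e ≤ dent t e' := by
  unfold bump dent
  have h0 : 0 < t ^ 3 := by positivity
  refine max_le (le_max_left _ _) ?_
  by_cases he : t ^ 3 ≤ |e|
  · exact (by linarith : t ^ 3 - |e| ≤ 0).trans (le_max_left _ _)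
  · push Not at he
    refine le_trans ?_ (le_max_right _ _)
    have h1 : |e'| ≤ |e| + t / 4 := by
      have h2 : |e'| ≤ |e| + |e' - e| := by
        have h3 := abs_add_le e (e' - e)
        simpa using h3
      rw [abs_sub_comm] at h
      linarith
    have h2 : t ^ 3 ≤ t := by
      have h3 : t ≤ 1 := ht1.trans (by norm_num)
      have h4 : t ^ 3 = t * t ^ 2 := by ring
      rw [h4]
      have h5 : t ^ 2 ≤ 1 := pow_le_one₀ ht.le h3
      nlinarith
    have h6 : |e'| ≤ 1 / 128 := by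
      have h7 : t ≤ 1 / 256 := ht1.trans (by norm_num)
      linarith
    have h8 : (1 : ℝ) ≤ 2 * (1 - 64 * |e'|) := by linarith
    have h9 : t ^ 3 * 1 ≤ t ^ 3 * (2 * (1 - 64 * |e'|)) := mul_le_mul_of_nonneg_left h8 h0.le
    linarith [abs_nonneg e]

theorem rt_le (t y : ℝ) : rt t y ≤ 1 / 2 := by
  unfold rt
  linarith [pit_nonneg (t ^ 3 / 2) (-t ^ 3) (y + 5 / 16), pit_nonneg (t ^ 3 / 2) (t ^ 3) (y + 3 / 16),
    pit_nonneg (t ^ 3 / 2) (t ^ 3) (y - 3 / 16), pit_nonneg (t ^ 3 / 2) (-t ^ 3) (y - 5 / 16),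
    chamf_nonneg t (hh t) y]

theorem le_lf (t y : ℝ) : -1 / 2 ≤ lf t y := by
  unfold lf
  linarith [pit_nonneg (t ^ 3 - t ^ 4) (-t ^ 4) (y + 1 / 4),
    pit_nonneg (t ^ 3 - t ^ 4) (-t ^ 4) (y - 1 / 4),
    slit_nonneg t (1 - t ^ 3 / 4) (y + 1 / 16), slit_nonneg t (1 - 3 * t ^ 3 / 4) (y - 1 / 16),
    chamf_nonneg t (hh t) y]

theorem le_lo (t y : ℝ) : -hh t ≤ lo t y := by
  unfold lo
  linarith [dent_nonneg t (y + 1 / 4), dent_nonneg t (y - 1 / 4), chamf_nonneg t (1 / 2) y]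

theorem hi_le (t y : ℝ) (ht : 0 < t) (ht1 : t ≤ 1 / 2 ^ 60) : hi t y ≤ hh t + t ^ 3 := by
  unfold hi
  linarith [two_bumps t y ht ht1, chamf_nonneg t (1 / 2) y]

/-- bumps against loose dents -/
theorem hi_lo (t y y' : ℝ) (ht : 0 < t) (ht1 : t ≤ 1 / 2 ^ 60) (h : |y - y'| ≤ t / 4) :
    hi t y ≤ 2 * hh t + lo t y' := by
  unfold hi lo
  have h1 := bump_le_dent t (y + 1 / 4) (y' + 1 / 4) ht ht1 (by
    rw [show y + 1 / 4 - (y' + 1 / 4) = y - y' by ring]; exact h)
  have h2 := bump_le_dent t (y - 1 / 4) (y' - 1 / 4) ht ht1 (by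
    rw [show y - 1 / 4 - (y' - 1 / 4) = y - y' by ring]; exact h)
  linarith [chamf_nonneg t (1 / 2) y, chamf_nonneg t (1 / 2) y']

theorem k2 : K2Stmt := by
  intro t k k' v v' ht ht1 him hmem hre
  have hk : k < 4 ∧ k' < 4 := by
    simp only [List.mem_cons, Prod.mk.injEq, List.not_mem_nil, or_false] at hmem
    omega
  refine disj_of_sep _ _ (fun y => v.re + Rs t k (y - v.im)) (fun y => v'.re + Ls t k' (y - v'.im))
    (fun z hz => (mem_sides t k hk.1 v z hz).1) (fun z hz => (mem_sides t k' hk.2 v' z hz).2) ?_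
  intro y
  have key : Rs t k (y - v.im) ≤ HX t k + HX t k' + pq t (penH k k') + Ls t k' (y - v'.im) := by
    have hd : ∀ s : ℝ, |s| = 1 → |s * (y - v.im) - s * (y - v'.im)| ≤ t / 4 := by
      intro s hs
      rw [← mul_sub, abs_mul, hs, one_mul]
      rw [show y - v.im - (y - v'.im) = v'.im - v.im by ring]
      exact him
    have hd1 : |(y - v'.im) - (y - v.im)| ≤ t / 4 := by
      have h1 := hd 1 (by norm_num)
      rw [one_mul, one_mul, abs_sub_comm] at h1
      exact h1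
    have hd2 : |-(y - v.im) - -(y - v'.im)| ≤ t / 4 := by
      have h1 := hd (-1) (by norm_num)
      rw [neg_one_mul, neg_one_mul] at h1
      exact h1
    have r1 := rt_le t (y - v.im)
    have r2 := rt_le t (-(y - v'.im))
    have l1 := le_lf t (-(y - v.im))
    have l2 := le_lf t (y - v'.im)
    have b1 := le_lo t (y - v.im)
    have b2 := le_lo t (-(y - v'.im))
    have t1 := hi_le t (-(y - v.im)) ht ht1
    have t2 := hi_le t (y - v'.im) ht ht1
    have d1 := hi_lo t (y - v'.im) (y - v.im) ht ht1 hd1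
    have d2 := hi_lo t (-(y - v.im)) (-(y - v'.im)) ht ht1 hd2
    have pn : ∀ a b, 0 ≤ pq t (penH a b) := by
      intro a b
      unfold pq
      split_ifs
      · positivity
      · exact le_rfl
    have p01 : pq t (penH 0 1) = t ^ 3 := by simp [pq, penH]
    have p32 : pq t (penH 3 2) = t ^ 3 := by simp [pq, penH]
    have R0 : ∀ x, Rs t 0 x = rt t x := fun x => by simp [Rs]
    have R1 : ∀ x, Rs t 1 x = -lo t x := fun x => by simp [Rs]
    have R2 : ∀ x, Rs t 2 x = -lf t (-x) := fun x => by simp [Rs]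
    have R3 : ∀ x, Rs t 3 x = hi t (-x) := fun x => by simp [Rs]
    have L0 : ∀ x, Ls t 0 x = lf t x := fun x => by simp [Ls]
    have L1 : ∀ x, Ls t 1 x = -hi t x := fun x => by simp [Ls]
    have L2 : ∀ x, Ls t 2 x = -rt t (-x) := fun x => by simp [Ls]
    have L3 : ∀ x, Ls t 3 x = lo t (-x) := fun x => by simp [Ls]
    have H0 : HX t 0 = 1 / 2 := by simp [HX]
    have H1 : HX t 1 = hh t := by simp [HX]
    have H2 : HX t 2 = 1 / 2 := by simp [HX]
    have H3 : HX t 3 = hh t := by simp [HX]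
    have hpk := pn k k'
    simp only [List.mem_cons, Prod.mk.injEq, List.not_mem_nil, or_false] at hmem
    rcases hmem with ⟨rfl, rfl⟩ | ⟨rfl, rfl⟩ | ⟨rfl, rfl⟩ | ⟨rfl, rfl⟩ | ⟨rfl, rfl⟩ | ⟨rfl, rfl⟩ |
      ⟨rfl, rfl⟩ | ⟨rfl, rfl⟩ | ⟨rfl, rfl⟩ | ⟨rfl, rfl⟩ | ⟨rfl, rfl⟩ | ⟨rfl, rfl⟩ | ⟨rfl, rfl⟩ <;>
      simp only [R0, R1, R2, R3, L0, L1, L2, L3, H0, H1, H2, H3] <;> linarith
  linarith

end Pool.Agent.Helper2_Pak.H63
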