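import Pool.Agent.Helper2_Pak.StmtsP

/-!
# Squad PAK1, module PC1: floor and ceiling meet only at the ends
-/

set_option autoImplicit false

namespace Pool.Agent.Helper2_Pak.H63

open Pool.Agent.Helper2_Pack (Polygon pt Crosses region IsSimple chainVal)

theorem ramp_range (t x : ℝ) (ht : 0 < t) (h0 : 0 ≤ x) (h1 : x ≤ 1) :
    0 ≤ ramp t x ∧ ramp t x ≤ 1 := by
  unfold ramp
  refine ⟨le_min zero_le_one (le_min ?_ ?_), min_le_left _ _⟩
  · positivity
  · have : 0 ≤ 1 - x := by linarith
    positivity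

theorem bump_le (t e : ℝ) (ht : 0 < t) : bump t e ≤ t ^ 3 := by
  unfold bump
  have h0 : 0 < t ^ 3 := by positivity
  exact max_le h0.le (by linarith [abs_nonneg e])

theorem locFl_le (t : ℝ) (G : Lay) (c : ℕ) (x : ℝ) (ht : 0 < t) (ht1 : t ≤ 1 / 64)
    (hf : |G.fl t c| ≤ t / 64) (h0 : 0 ≤ x) (h1 : x ≤ 1) : G.locFl t c x ≤ 1 / 2 := by
  obtain ⟨r0, r1⟩ := ramp_range t x ht h0 h1
  have h2 : G.fl t c * ramp t x ≤ t / 64 := by
    calc G.fl t c * ramp t x ≤ |G.fl t c| * ramp t x :=
          mul_le_mul_of_nonneg_right (le_abs_self _) r0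
      _ ≤ t / 64 * 1 := mul_le_mul hf r1 r0 (by positivity)
      _ = t / 64 := mul_one _
  have h3 : t ^ 3 ≤ 1 / 64 := by
    have h4 : t ^ 3 ≤ t ^ 1 := pow_le_pow_of_le_one ht.le (by linarith) (by norm_num)
    linarith only [ht1, h4]
  unfold Lay.locFl
  split_ifs
  · have d1 : 0 ≤ dent t (x - 1 / 4) := le_max_left _ _
    have d2 : 0 ≤ dent t (x - 3 / 4) := le_max_left _ _
    linarith
  · have b1 := bump_le t (x - 1 / 4) ht
    have b2 := bump_le t (x - 3 / 4) ht
    linarith

theorem dent_far (t e : ℝ) (ht : 0 < t) (he : 1 / 64 ≤ |e|) : dent t e = 0 := by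
  unfold dent
  refine max_eq_left ?_
  have h0 : 0 < 2 * t ^ 3 := by positivity
  nlinarith

theorem bump_far (t e : ℝ) (he : t ^ 3 ≤ |e|) : bump t e = 0 := by
  unfold bump
  exact max_eq_left (by linarith)

theorem locFl_end (t : ℝ) (G : Lay) (c : ℕ) (x : ℝ) (ht : 0 < t) (ht1 : t ≤ 1 / 64)
    (hx : x = 0 ∨ x = 1) : G.locFl t c x = 0 := by
  have h3 : t ^ 3 ≤ 1 / 64 := by
    have h4 : t ^ 3 ≤ t ^ 1 := pow_le_pow_of_le_one ht.le (by linarith) (by norm_num)
    linarith
  have hr : ramp t x = 0 := by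
    unfold ramp
    rcases hx with rfl | rfl
    · rw [mul_zero, zero_div, sub_zero]
      rw [min_eq_left (by positivity : (0 : ℝ) ≤ 4 * 1 / t)]
      exact min_eq_right (by norm_num)
    · rw [sub_self, mul_zero, zero_div]
      rw [min_eq_right (by positivity : (0 : ℝ) ≤ 4 * 1 / t)]
      exact min_eq_right (by norm_num)
  have e1 : 1 / 64 ≤ |x - 1 / 4| := by
    rcases hx with rfl | rfl <;> norm_num [abs_of_nonneg, abs_of_nonpos]
  have e2 : 1 / 64 ≤ |x - 3 / 4| := by
    rcases hx with rfl | rfl <;> norm_num [abs_of_nonneg, abs_of_nonpos]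
  unfold Lay.locFl
  rw [hr, mul_zero, zero_add, dent_far t _ ht e1, dent_far t _ ht e2, bump_far t _ (h3.trans e1),
    bump_far t _ (h3.trans e2)]
  split_ifs <;> simp

theorem two_le_length (L : Polygon) (A B : ℚ × ℚ) (hA : L.head? = some A)
    (hB : L.getLast? = some B) (hne : A ≠ B) : 2 ≤ L.length := by
  match L, hA, hB with
  | [], h, _ => simp at h
  | [p], h, h' =>
    simp at h h'
    exact absurd (h.symm.trans h') hne
  | p :: q :: L, _, _ => simp

theorem pc1 (hPB1 : PB1Stmt) (hPB2 : PB2Stmt) (hPB3 : PB3Stmt) (hPB4 : PB4Stmt) (hG1 : G1Stmt)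
    (hPA4 : PA4Stmt) : PC1Stmt := by
  intro m G hG hs z hzF hzU
  obtain ⟨g1, g2, g3, g4, g5, g6⟩ := hG1 _ G hG hs
  have ht : (0 : ℝ) < (1 / 2) ^ m := hs.pos
  have ht1 : ((1 : ℝ) / 2) ^ m ≤ 1 / 64 := g1.trans (by norm_num)
  have hM := hG.M_pos
  have hn := hG.n_pos
  have hN : 3 ≤ G.N := by unfold Lay.N; omega
  have hNr : (3 : ℝ) ≤ G.N := by exact_mod_cast hN
  have htop : ∀ c, G.N ≤ G.top c := fun c => Nat.le_add_right _ _
  -- the floor
  obtain ⟨-, -, -, -, -, hF⟩ := hPB1 m G hG hs
  rw [hF] at hzF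
  obtain ⟨c, hc, hc1, hc2, hzim⟩ := hzF
  have hlow : z.im ≤ 1 / 2 := by
    rw [hzim]
    exact locFl_le _ G c _ ht ht1 (g5 c hc).1 (by linarith only [hc1]) (by linarith only [hc2])
  -- the upper part
  obtain ⟨-, -, -, hU, -⟩ := hPB4 m G hG hs G.M le_rfl
  rw [hU] at hzU
  rcases hzU with hzU | hzU
  · simp only [Set.mem_iUnion, Finset.mem_range, exists_prop] at hzU
    obtain ⟨X, hX, hzX⟩ := hzU
    have hXM : X ≤ G.M := by omega
    obtain ⟨w1, w2, w3⟩ := hPB3 m G X hG hs hXM
    rcases lt_trichotomy (G.topL X) (G.topR X) with hlt | heq | hgt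
    · -- left walls
      obtain ⟨a1, a2, a3, a4⟩ := w2 hlt
      have hne : ((X : ℚ), (G.topL X : ℚ)) ≠ ((X : ℚ), (G.topR X : ℚ)) := by
        intro h
        have h1 : (G.topL X : ℚ) = G.topR X := congrArg Prod.snd h
        have h2 : G.topL X = G.topR X := by exact_mod_cast h1
        omega
      obtain ⟨-, -, -, -, b1, -⟩ := hPA4 _ _ _ a1 (two_le_length _ _ _ a2 a3 hne) a2 a3 rfl
      rw [b1] at hzX
      obtain ⟨y1, y2, y3⟩ := hzX
      have hX0 : X = 0 := by
        by_contra hX0
        have h1 : G.N ≤ G.topL X := by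
          unfold Lay.topL
          rw [if_neg hX0]
          exact htop _
        have h2 : (G.N : ℝ) ≤ G.topL X := by exact_mod_cast h1
        push_cast at y1
        linarith only [hNr, hlow, h2, y1]
      subst hX0
      have hTL : G.topL 0 = 0 := by simp [Lay.topL]
      have hy0 : 0 ≤ z.im := by
        rw [hTL] at y1
        simpa using y1
      have hyR : z.im ≤ G.topR 0 := by
        have := y2
        push_cast at this
        exact this
      have hfl : ⌊z.im⌋₊ = 0 := Nat.floor_eq_zero.2 (by linarith only [hlow])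
      rw [a4 z.im (by rw [hTL]; simpa using hy0) hyR, hfl] at y3
      simp at y3
      have hc0 : c = 0 := by
        have h1 : (c : ℝ) ≤ 0 := by linarith only [hc1, y3]
        have h2 : c ≤ 0 := by exact_mod_cast h1
        omega
      have hz0 : z.im = 0 := by
        rw [hzim]
        refine locFl_end _ G c _ ht ht1 (Or.inl ?_)
        rw [y3, hc0]
        simp
      left
      refine Complex.ext ?_ ?_
      · rw [y3]
        simp [pt]
      · rw [hz0]
        simp [pt]
    · -- no wall
      have h1 := w1 heq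
      have hX0 : X ≠ 0 := by
        intro hX0
        subst hX0
        have hTL : G.topL 0 = 0 := by simp [Lay.topL]
        have hTR : G.topR 0 = G.top 0 := by
          unfold Lay.topR
          rw [if_pos (by omega)]
        have := htop 0
        omega
      unfold Lay.wallP at hzX
      rw [h1, if_neg hX0] at hzX
      exfalso
      rcases hzX with ⟨i, hi, -⟩ | ⟨p, hp, hzp⟩
      · simp at hi
      · have hp' : p = ((X : ℚ), G.J' ((1 / 2) ^ m) (X - 1)) := (List.singleton_inj.1 hp).symm
        rw [hzp, hp'] at hlow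
        have h2 : (G.N : ℝ) ≤ ((G.J' ((1 / 2) ^ m) (X - 1) : ℚ) : ℝ) := by
          have h3 : (G.N : ℚ) ≤ G.J' ((1 / 2) ^ m) (X - 1) := by
            unfold Lay.J'
            split_ifs
            · have : (0 : ℚ) ≤ tipQ ((1 / 2) ^ m) (G.kd (X - 1)).sig := by
                unfold tipQ
                split_ifs <;> positivity
              linarith only [this]
            · exact_mod_cast htop (X - 1)
          exact_mod_cast h3
        simp only [pt] at hlow
        linarith only [hNr, hlow, h2]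
    · -- right walls
      obtain ⟨a1, a2, a3, a4⟩ := w3 hgt
      have hne : ((X : ℚ), (G.topR X : ℚ)) ≠ ((X : ℚ), (G.topL X : ℚ)) := by
        intro h
        have h1 : (G.topR X : ℚ) = G.topL X := congrArg Prod.snd h
        have h2 : G.topR X = G.topL X := by exact_mod_cast h1
        omega
      obtain ⟨-, -, b0, -, b1, -⟩ := hPA4 _ _ _ a1 (two_le_length _ _ _ a2 a3 hne) a2 a3 rfl
      rw [List.reverse_reverse] at b0
      rw [b0, b1] at hzX
      obtain ⟨y1, y2, y3⟩ := hzX
      have hXM' : X = G.M := by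
        by_contra hXM'
        have h1 : G.N ≤ G.topR X := by
          unfold Lay.topR
          rw [if_pos (by omega)]
          exact htop _
        have h2 : (G.N : ℝ) ≤ G.topR X := by exact_mod_cast h1
        push_cast at y1
        linarith only [hNr, hlow, h2, y1]
      have hTR : G.topR X = 0 := by
        rw [hXM']
        simp [Lay.topR]
      have hy0 : 0 ≤ z.im := by
        rw [hTR] at y1
        simpa using y1
      have hyL : z.im ≤ G.topL X := by
        have := y2
        push_cast at this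
        exact this
      have hfl : ⌊z.im⌋₊ = 0 := Nat.floor_eq_zero.2 (by linarith only [hlow])
      rw [a4 z.im (by rw [hTR]; simpa using hy0) hyL, hfl] at y3
      simp at y3
      have hcM : c + 1 = G.M := by
        have h1 : (G.M : ℝ) ≤ c + 1 := by
          rw [← hXM', ← y3]
          exact hc2
        have h2 : G.M ≤ c + 1 := by exact_mod_cast h1
        omega
      have hcMr : (c : ℝ) + 1 = G.M := by exact_mod_cast hcM
      have hz0 : z.im = 0 := by
        rw [hzim]
        refine locFl_end _ G c _ ht ht1 (Or.inr ?_)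
        rw [y3, hXM', ← hcMr]
        ring
      right
      refine Complex.ext ?_ ?_
      · rw [y3, hXM']
        simp [pt]
      · rw [hz0]
        simp [pt]
  · simp only [Set.mem_iUnion, Finset.mem_range, exists_prop] at hzU
    obtain ⟨c', hc', hzc⟩ := hzU
    obtain ⟨-, -, -, hb, -⟩ := hPB2 m G c' hG hs hc'
    have h1 := (hb z hzc).2.1
    have h2 : (0 : ℝ) ≤ ((G.kd c').h : ℝ) := Nat.cast_nonneg _
    linarith only [hNr, hlow, h1]

end Pool.Agent.Helper2_Pak.H63
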