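import Pool.Agent.Helper2_Pak.StmtsT

/-!
# Squad PAK1, module T5: the numbers which occur in the main rows
-/

set_option autoImplicit false

namespace Pool.Agent.Helper2_Pak.H63

open Pool.Agent.Helper2_Pack Pool.Agent.Helper53_CookLevin Pool.Agent.Helper53_Chan
open Pool.Agent.Helper91_Pack

variable {k : ℕ}

theorem flatMap_rep (f : ℕ → ℕ) (n : ℕ) :
    (List.range n).flatMap (fun i => List.replicate (f i) uu) =
      List.replicate (∑ i ∈ Finset.range n, f i) uu := by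
  induction n with
  | zero => simp
  | succ n ih =>
    rw [List.range_succ, List.flatMap_append, ih, Finset.sum_range_succ, List.replicate_add]
    simp

theorem NG.sum {e : (Fin k → List CL) → ℕ} (he : NG k e) {K : ℕ → (Fin k → List CL) → ℕ}
    (h : NG (k + 1) (fun ρ => K (ρ 0).length (ρ ∘ Fin.succ))) :
    NG k (fun ρ => ∑ i ∈ Finset.range (e ρ), K i ρ) := by
  refine PGen.congr (loopN he (K := fun i ρ => List.replicate (K i ρ) uu) h) (fun ρ => ?_)
  exact flatMap_rep (fun i => K i ρ) (e ρ)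

/-- special tiles of the main rows -/
def sM (l r : ℕ) : Bool := decide (r % 2 = 1) && decide (r + 1 ≤ 2 * l)

theorem spc_eq (G : Lay) (c r : ℕ) (hr : r < G.N) : G.spc c r = sM (G.l c) r := by
  unfold Lay.spc sM
  rw [if_pos hr]

/-- gaps -/
def pM (w w' s s' : Bool) : Bool := (!w && !w' && !s && s') || (w && w' && s && !s')

theorem pen_eq (G : Lay) (c r : ℕ) (hr : r < G.N) : G.pen c r =
    pM (G.kd c).isW (G.kd (c + 1)).isW (sM (G.l c) r) (sM (G.l (c + 1)) r) := by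
  unfold Lay.pen pM
  rw [spc_eq G c r hr, spc_eq G (c + 1) r hr]

theorem pres_eq (G : Lay) (c r : ℕ) (hr : r < G.N) : G.pres c r = decide (c < G.M) := by
  unfold Lay.pres
  have h : r < G.top c := lt_of_lt_of_le hr (Nat.le_add_right _ _)
  simp [h]

theorem dr_main (G : Lay) (r : ℕ) (hr : r < G.N) : ∀ c, c ≤ G.M →
    (G.dr c r).1 = ∑ i ∈ Finset.range c, (if sM (G.l i) r = true then 1 else 0) ∧
    (G.dr c r).2 = ∑ i ∈ Finset.range c, (if (decide (i + 1 < G.M) &&
      pM (G.kd i).isW (G.kd (i + 1)).isW (sM (G.l i) r) (sM (G.l (i + 1)) r)) = true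
      then 1 else 0) := by
  intro c
  induction c with
  | zero => intro _; simp [Lay.dr]
  | succ c ih =>
    intro hc
    obtain ⟨h1, h2⟩ := ih (by omega)
    have hp : G.pres c r = true := by
      rw [pres_eq G c r hr]
      simp only [decide_eq_true_eq]
      omega
    rw [Finset.sum_range_succ, Finset.sum_range_succ, ← h1, ← h2]
    rw [Lay.dr, if_pos hp, spc_eq G c r hr, pres_eq G (c + 1) r hr, pen_eq G c r hr]
    exact ⟨rfl, rfl⟩

theorem FG.sM {l r : (Fin k → List CL) → ℕ} (hl : NG k l) (hr : NG k r) :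
    FG k (fun ρ => sM (l ρ) (r ρ)) :=
  FG.map₂ (fun a b : Bool => a && b) (FG.bool (teq (NG.mod hr (NG.const 2)) (NG.const 1)))
    (FG.bool (tle (NG.add hr (NG.const 1)) (NG.mul (NG.const 2) hl)))

theorem FG.pM {w w' s s' : (Fin k → List CL) → Bool} (hw : FG k w) (hw' : FG k w')
    (hs : FG k s) (hs' : FG k s') : FG k (fun ρ => pM (w ρ) (w' ρ) (s ρ) (s' ρ)) :=
  FG.map₂ (fun (a : Bool × Bool) (b : Bool × Bool) => H63.pM a.1 a.2 b.1 b.2)
    (FG.map₂ Prod.mk hw hw') (FG.map₂ Prod.mk hs hs')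

theorem NG.ind {b : (Fin k → List CL) → Bool} (hb : FG k b) :
    NG k (fun ρ => if b ρ = true then 1 else 0) :=
  NG.ite (FG.test hb) (NG.const 1) (NG.const 0)

theorem t5 (h4 : T4Stmt) : T5Stmt := by
  -- the main step
  have step : ∀ (k : ℕ) (v : (Fin k → List CL) → List SLetter)
      (c r : (Fin k → List CL) → ℕ), SG k v → NG k c → NG k r →
      (∀ ρ, c ρ ≤ (lay (sysOfWord (v ρ))).M) →
      NG k (fun ρ => if r ρ < (lay (sysOfWord (v ρ))).N then
        ((lay (sysOfWord (v ρ))).dr (c ρ) (r ρ)).1 else 0) ∧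
      NG k (fun ρ => if r ρ < (lay (sysOfWord (v ρ))).N then
        ((lay (sysOfWord (v ρ))).dr (c ρ) (r ρ)).2 else 0) := by
    intro k v c r hv hc hr hcM
    have hN : NG k (fun ρ => (lay (sysOfWord (v ρ))).N) :=
      NG.congr (NG.add (NG.mul (NG.const 2) (h4 k v c hv hc).1) (NG.const 1)) (fun _ => rfl)
    have hv' := SG.up hv
    have hl0 : NG (k + 1) (fun ρ => (lay (sysOfWord (v (ρ ∘ Fin.succ)))).l (ρ 0).length) :=
      (h4 (k + 1) _ _ hv' NG.len0).2.2.2
    have hl1 : NG (k + 1) (fun ρ => (lay (sysOfWord (v (ρ ∘ Fin.succ)))).l ((ρ 0).length + 1)) :=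
      (h4 (k + 1) _ _ hv' (NG.add NG.len0 (NG.const 1))).2.2.2
    have hk0 : FG (k + 1) (fun ρ => (lay (sysOfWord (v (ρ ∘ Fin.succ)))).kd (ρ 0).length) :=
      (h4 (k + 1) _ _ hv' NG.len0).2.2.1
    have hk1 : FG (k + 1) (fun ρ => (lay (sysOfWord (v (ρ ∘ Fin.succ)))).kd
        ((ρ 0).length + 1)) :=
      (h4 (k + 1) _ _ hv' (NG.add NG.len0 (NG.const 1))).2.2.1
    have hM1 : NG (k + 1) (fun ρ => (lay (sysOfWord (v (ρ ∘ Fin.succ)))).M) :=
      (h4 (k + 1) _ _ hv' NG.len0).2.1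
    have hr' : NG (k + 1) (fun ρ => r (ρ ∘ Fin.succ)) := NG.up hr
    have s1 : NG k (fun ρ => ∑ i ∈ Finset.range (c ρ),
        (if sM ((lay (sysOfWord (v ρ))).l i) (r ρ) = true then 1 else 0)) :=
      NG.sum hc (K := fun i ρ => if sM ((lay (sysOfWord (v ρ))).l i) (r ρ) = true then 1 else 0)
        (NG.ind (FG.sM hl0 hr'))
    have s2 : NG k (fun ρ => ∑ i ∈ Finset.range (c ρ),
        (if (decide (i + 1 < (lay (sysOfWord (v ρ))).M) &&
          pM ((lay (sysOfWord (v ρ))).kd i).isW ((lay (sysOfWord (v ρ))).kd (i + 1)).isW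
            (sM ((lay (sysOfWord (v ρ))).l i) (r ρ))
            (sM ((lay (sysOfWord (v ρ))).l (i + 1)) (r ρ))) = true then 1 else 0)) :=
      NG.sum hc (K := fun i ρ => if (decide (i + 1 < (lay (sysOfWord (v ρ))).M) &&
          pM ((lay (sysOfWord (v ρ))).kd i).isW ((lay (sysOfWord (v ρ))).kd (i + 1)).isW
            (sM ((lay (sysOfWord (v ρ))).l i) (r ρ))
            (sM ((lay (sysOfWord (v ρ))).l (i + 1)) (r ρ))) = true then 1 else 0)
        (NG.ind (FG.map₂ (fun a b : Bool => a && b)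
          (FG.bool (tlt (NG.add NG.len0 (NG.const 1)) hM1))
          (FG.pM (FG.map Kind.isW hk0) (FG.map Kind.isW hk1) (FG.sM hl0 hr') (FG.sM hl1 hr'))))
    refine ⟨NG.congr (NG.ite (tlt hr hN) s1 (NG.const 0)) ?_,
      NG.congr (NG.ite (tlt hr hN) s2 (NG.const 0)) ?_⟩
    · intro ρ
      by_cases h : r ρ < (lay (sysOfWord (v ρ))).N
      · rw [if_pos h, if_pos h]
        exact (dr_main _ _ h _ (hcM ρ)).1.symm
      · rw [if_neg h, if_neg h]
    · intro ρ
      by_cases h : r ρ < (lay (sysOfWord (v ρ))).N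
      · rw [if_pos h, if_pos h]
        exact (dr_main _ _ h _ (hcM ρ)).2.symm
      · rw [if_neg h, if_neg h]
  intro k v c r hv hc hr hcM
  obtain ⟨a1, a2⟩ := step k v c r hv hc hr hcM
  refine ⟨a1, a2, ?_⟩
  have hN : NG k (fun ρ => (lay (sysOfWord (v ρ))).N) :=
    NG.congr (NG.add (NG.mul (NG.const 2) (h4 k v c hv hc).1) (NG.const 1)) (fun _ => rfl)
  have hv' := SG.up hv
  have hc' : NG (k + 1) (fun ρ => c (ρ ∘ Fin.succ)) := NG.up hc
  have hl : NG (k + 1) (fun ρ => (lay (sysOfWord (v (ρ ∘ Fin.succ)))).l (c (ρ ∘ Fin.succ))) :=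
    (h4 (k + 1) _ _ hv' hc').2.2.2
  obtain ⟨b1, b2⟩ := step (k + 1) (fun ρ => v (ρ ∘ Fin.succ)) (fun ρ => c (ρ ∘ Fin.succ))
    (fun ρ => (ρ 0).length) hv' hc' NG.len0 (fun ρ => hcM _)
  have s1 : NG k (fun ρ => ∑ i ∈ Finset.range (lay (sysOfWord (v ρ))).N,
      (if sM ((lay (sysOfWord (v ρ))).l (c ρ)) i = true then
        (if i < (lay (sysOfWord (v ρ))).N then ((lay (sysOfWord (v ρ))).dr (c ρ) i).1 else 0)
        else 0)) :=
    NG.sum hN (K := fun i ρ => if sM ((lay (sysOfWord (v ρ))).l (c ρ)) i = true then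
        (if i < (lay (sysOfWord (v ρ))).N then ((lay (sysOfWord (v ρ))).dr (c ρ) i).1 else 0)
        else 0) (NG.ite (FG.test (FG.sM hl NG.len0)) b1 (NG.const 0))
  have s2 : NG k (fun ρ => ∑ i ∈ Finset.range (lay (sysOfWord (v ρ))).N,
      (if sM ((lay (sysOfWord (v ρ))).l (c ρ)) i = true then
        (if i < (lay (sysOfWord (v ρ))).N then ((lay (sysOfWord (v ρ))).dr (c ρ) i).2 else 0)
        else 0)) :=
    NG.sum hN (K := fun i ρ => if sM ((lay (sysOfWord (v ρ))).l (c ρ)) i = true then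
        (if i < (lay (sysOfWord (v ρ))).N then ((lay (sysOfWord (v ρ))).dr (c ρ) i).2 else 0)
        else 0) (NG.ite (FG.test (FG.sM hl NG.len0)) b2 (NG.const 0))
  refine ⟨NG.congr s1 ?_, NG.congr s2 ?_⟩
  · intro ρ
    unfold Lay.S1
    rw [Finset.sum_filter]
    refine Finset.sum_congr rfl fun i hi => ?_
    have hi' := Finset.mem_range.1 hi
    rw [spc_eq _ _ _ hi', if_pos hi']
  · intro ρ
    unfold Lay.S2
    rw [Finset.sum_filter]
    refine Finset.sum_congr rfl fun i hi => ?_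
    have hi' := Finset.mem_range.1 hi
    rw [spc_eq _ _ _ hi', if_pos hi']

end Pool.Agent.Helper2_Pak.H63
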